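import Pool.Agent.Y924.EL.Stm

/-!
# EL-REC: elementary functions have records of computations below a tower (helper638)
-/

set_option autoImplicit false

namespace Pool.Agent.Y638.EL

open Pool.Agent.Y924.EL

/-! ### towers -/

theorem add_le_tower (k x : ℕ) : k + x ≤ tower k x := by
  induction k with
  | zero => simp [tower]
  | succ k ih =>
    have h : tower k x < 2 ^ tower k x := Nat.lt_two_pow_self
    simp only [tower]
    omega

theorem tower_mono_right (k : ℕ) {x y : ℕ} (h : x ≤ y) : tower k x ≤ tower k y := by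
  induction k with
  | zero => exact h
  | succ k ih => exact Nat.pow_le_pow_right (by norm_num) ih

theorem tower_mono_left {k l : ℕ} (h : k ≤ l) (x : ℕ) : tower k x ≤ tower l x := by
  induction h with
  | refl => exact le_rfl
  | step _ ih => exact ih.trans Nat.lt_two_pow_self.le

theorem tower_tower (k l x : ℕ) : tower k (tower l x) = tower (k + l) x := by
  induction k with
  | zero => simp [tower]
  | succ k ih =>
    rw [Nat.succ_add]
    simp only [tower]
    rw [ih]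

theorem pair_lt {k x a b : ℕ} (ha : a < tower k x) (hb : b < tower k x) :
    Nat.pair a b < tower (k + 2) x := by
  have h1 : Nat.pair a b < (max a b + 1) ^ 2 := Nat.pair_lt_max_add_one_sq a b
  have h0 : tower (k + 2) x = 2 ^ (2 ^ tower k x) := rfl
  rw [h0]
  generalize tower k x = T at *
  have h2 : max a b + 1 ≤ T := by omega
  have h3 : (max a b + 1) ^ 2 ≤ T ^ 2 := Nat.pow_le_pow_left h2 2
  have h4 : T < 2 ^ T := Nat.lt_two_pow_self
  have h5 : T ^ 2 ≤ (2 ^ T) ^ 2 := Nat.pow_le_pow_left h4.le 2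
  have h6 : (2 ^ T) ^ 2 = 2 ^ (T * 2) := (pow_mul 2 T 2).symm
  have h7 : T * 2 ≤ 2 ^ T := by
    obtain ⟨s, rfl⟩ : ∃ s, T = s + 1 := ⟨T - 1, by omega⟩
    have : s < 2 ^ s := Nat.lt_two_pow_self
    rw [pow_succ]
    omega
  have h8 : 2 ^ (T * 2) ≤ 2 ^ (2 ^ T) := Nat.pow_le_pow_right (by norm_num) h7
  omega

theorem tr_lt {k x c a b : ℕ} (hc : c < tower k x) (ha : a < tower k x) (hb : b < tower k x) :
    tr c a b < tower (k + 4) x := by
  have h1 := pair_lt ha hb
  have h2 : c < tower (k + 2) x := hc.trans_le (tower_mono_left (by omega) x)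
  exact pair_lt h2 h1

theorem const_lt (c x : ℕ) : c < tower (c + 1) x := by
  have := add_le_tower (c + 1) x
  omega

theorem self_lt (x : ℕ) : x < tower 1 x := Nat.lt_two_pow_self

/-! ### closed sets -/

theorem just_mono {W W' : Set ℕ} (h : W ⊆ W') {t : ℕ} (ht : Just W t) : Just W' t := by
  obtain ⟨c, x, y, g, c1, c2, h1, h2, h3⟩ := ht
  refine ⟨c, x, y, g, c1, c2, h1, h2, ?_⟩
  rcases h3 with h3 | h3 | h3 | h3 | ⟨hg, a, b, h4, h5, h6⟩ | ⟨hg, a, h4, h5⟩ | ⟨hg, z, n, h4, h5⟩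
  · exact Or.inl h3
  · exact Or.inr (Or.inl h3)
  · exact Or.inr (Or.inr (Or.inl h3))
  · exact Or.inr (Or.inr (Or.inr (Or.inl h3)))
  · exact Or.inr (Or.inr (Or.inr (Or.inr (Or.inl ⟨hg, a, b, h h4, h h5, h6⟩))))
  · exact Or.inr (Or.inr (Or.inr (Or.inr (Or.inr (Or.inl ⟨hg, a, h h4, h h5⟩)))))
  · refine Or.inr (Or.inr (Or.inr (Or.inr (Or.inr (Or.inr ⟨hg, z, n, h4, ?_⟩)))))
    rcases h5 with ⟨h6, h7⟩ | ⟨k, i, h6, h7, h8⟩
    · exact Or.inl ⟨h6, h h7⟩
    · exact Or.inr ⟨k, i, h6, h h7, h h8⟩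

theorem closed_union {W W' : Set ℕ} (h : Closed W) (h' : Closed W') : Closed (W ∪ W') := by
  intro t ht
  rcases ht with ht | ht
  · exact just_mono Set.subset_union_left (h t ht)
  · exact just_mono Set.subset_union_right (h' t ht)

theorem closed_iUnion {ι : Type} {W : ι → Set ℕ} (h : ∀ i, Closed (W i)) :
    Closed (⋃ i, W i) := by
  intro t ht
  obtain ⟨i, hi⟩ := Set.mem_iUnion.1 ht
  exact just_mono (Set.subset_iUnion W i) (h i t hi)

theorem closed_insert {W : Set ℕ} {t : ℕ} (h : Closed W) (ht : Just (insert t W) t) :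
    Closed (insert t W) := by
  intro s hs
  rcases Set.mem_insert_iff.1 hs with rfl | hs
  · exact ht
  · exact just_mono (Set.subset_insert _ _) (h s hs)

/-! ### functions with records -/

/-- `f` has records below a tower -/
def Q (f : ℕ → ℕ) : Prop := ∃ c k : ℕ, ∀ x : ℕ, ∃ W : Set ℕ,
  Closed W ∧ tr c x (f x) ∈ W ∧ ∀ t ∈ W, t < tower k x

theorem Q.bound {f : ℕ → ℕ} (h : Q f) : ∃ k, ∀ x, f x < tower k x := by
  obtain ⟨c, k, h⟩ := h
  refine ⟨k, fun x => ?_⟩
  obtain ⟨W, _, h2, h3⟩ := h x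
  have h4 : f x ≤ tr c x (f x) := (Nat.right_le_pair _ _).trans (Nat.right_le_pair _ _)
  exact h4.trans_lt (h3 _ h2)

/-- functions computed in one step -/
theorem Q.base {f : ℕ → ℕ} (c : ℕ) (hb : ∃ k, ∀ x, f x < tower k x)
    (h : ∀ x, Just ∅ (tr c x (f x))) : Q f := by
  obtain ⟨k, hk⟩ := hb
  refine ⟨c, (c + 1) + 1 + k + 4, fun x => ⟨{tr c x (f x)}, ?_, rfl, ?_⟩⟩
  · intro t ht
    rw [Set.mem_singleton_iff.1 ht]
    exact just_mono (Set.empty_subset _) (h x)
  · intro t ht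
    rw [Set.mem_singleton_iff.1 ht]
    exact tr_lt ((const_lt c x).trans_le (tower_mono_left (by omega) x))
      ((self_lt x).trans_le (tower_mono_left (by omega) x))
      ((hk x).trans_le (tower_mono_left (by omega) x))

theorem Q.zero : Q fun _ => 0 :=
  Q.base (Nat.pair 0 (Nat.pair 0 0)) ⟨1, fun x => by simp [tower]⟩ fun x =>
    ⟨_, x, 0, 0, 0, 0, rfl, rfl, Or.inl ⟨rfl, rfl⟩⟩

theorem Q.succ : Q fun n => n + 1 :=
  Q.base (Nat.pair 1 (Nat.pair 0 0)) ⟨2, fun x => by have := add_le_tower 2 x; omega⟩ fun x =>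
    ⟨_, x, x + 1, 1, 0, 0, rfl, rfl, Or.inr (Or.inl ⟨rfl, rfl⟩)⟩

theorem Q.left : Q fun n => n.unpair.1 :=
  Q.base (Nat.pair 2 (Nat.pair 0 0))
    ⟨1, fun x => (Nat.unpair_left_le x).trans_lt (self_lt x)⟩ fun x =>
    ⟨_, x, x.unpair.1, 2, 0, 0, rfl, rfl,
      Or.inr (Or.inr (Or.inl ⟨rfl, x.unpair.2, (Nat.pair_unpair x).symm⟩))⟩

theorem Q.right : Q fun n => n.unpair.2 :=
  Q.base (Nat.pair 3 (Nat.pair 0 0))
    ⟨1, fun x => (Nat.unpair_right_le x).trans_lt (self_lt x)⟩ fun x =>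
    ⟨_, x, x.unpair.2, 3, 0, 0, rfl, rfl,
      Or.inr (Or.inr (Or.inr (Or.inl ⟨rfl, x.unpair.1, (Nat.pair_unpair x).symm⟩)))⟩

theorem Q.pair {f g : ℕ → ℕ} (hf : Q f) (hg : Q g) : Q fun n => Nat.pair (f n) (g n) := by
  obtain ⟨kf, hkf⟩ := hf.bound
  obtain ⟨kg, hkg⟩ := hg.bound
  obtain ⟨c1, k1, h1⟩ := hf
  obtain ⟨c2, k2, h2⟩ := hg
  set c := Nat.pair 4 (Nat.pair c1 c2) with hc
  set K := (c + 1) + kf + kg + k1 + k2 + 10 with hK
  refine ⟨c, K, fun x => ?_⟩
  obtain ⟨W1, a1, a2, a3⟩ := h1 x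
  obtain ⟨W2, b1, b2, b3⟩ := h2 x
  refine ⟨insert (tr c x (Nat.pair (f x) (g x))) (W1 ∪ W2), ?_, Set.mem_insert _ _, ?_⟩
  · refine closed_insert (closed_union a1 b1) ⟨c, x, _, 4, c1, c2, rfl, hc, ?_⟩
    refine Or.inr (Or.inr (Or.inr (Or.inr (Or.inl ⟨rfl, f x, g x, ?_, ?_, rfl⟩))))
    · exact Set.mem_insert_of_mem _ (Or.inl a2)
    · exact Set.mem_insert_of_mem _ (Or.inr b2)
  · intro t ht
    rcases Set.mem_insert_iff.1 ht with rfl | ht | ht
    · have e1 : Nat.pair (f x) (g x) < tower (kf + kg + 2) x :=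
        pair_lt ((hkf x).trans_le (tower_mono_left (by omega) x))
          ((hkg x).trans_le (tower_mono_left (by omega) x))
      have e2 : tr c x (Nat.pair (f x) (g x)) < tower ((c + 1) + kf + kg + 2 + 1 + 4) x :=
        tr_lt ((const_lt c x).trans_le (tower_mono_left (by omega) x))
          ((self_lt x).trans_le (tower_mono_left (by omega) x))
          (e1.trans_le (tower_mono_left (by omega) x))
      exact e2.trans_le (tower_mono_left (by omega) x)
    · exact (a3 t ht).trans_le (tower_mono_left (by omega) x)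
    · exact (b3 t ht).trans_le (tower_mono_left (by omega) x)

theorem Q.comp {f g : ℕ → ℕ} (hf : Q f) (hg : Q g) : Q fun n => f (g n) := by
  obtain ⟨kf, hkf⟩ := hf.bound
  obtain ⟨kg, hkg⟩ := hg.bound
  obtain ⟨c1, k1, h1⟩ := hf
  obtain ⟨c2, k2, h2⟩ := hg
  set c := Nat.pair 5 (Nat.pair c1 c2) with hc
  set K := (c + 1) + kf + kg + k1 + k2 + 10 with hK
  refine ⟨c, K, fun x => ?_⟩
  obtain ⟨W1, a1, a2, a3⟩ := h1 (g x)
  obtain ⟨W2, b1, b2, b3⟩ := h2 x
  have hg1 : ∀ k, tower k (g x) ≤ tower (k + kg) x := fun k => by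
    rw [← tower_tower]
    exact tower_mono_right k (hkg x).le
  refine ⟨insert (tr c x (f (g x))) (W1 ∪ W2), ?_, Set.mem_insert _ _, ?_⟩
  · refine closed_insert (closed_union a1 b1) ⟨c, x, _, 5, c1, c2, rfl, hc, ?_⟩
    refine Or.inr (Or.inr (Or.inr (Or.inr (Or.inr (Or.inl ⟨rfl, g x, ?_, ?_⟩)))))
    · exact Set.mem_insert_of_mem _ (Or.inr b2)
    · exact Set.mem_insert_of_mem _ (Or.inl a2)
  · intro t ht
    rcases Set.mem_insert_iff.1 ht with rfl | ht | ht
    · have e1 : f (g x) < tower (kf + kg) x := (hkf _).trans_le (hg1 kf)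
      have e2 : tr c x (f (g x)) < tower ((c + 1) + kf + kg + 1 + 4) x :=
        tr_lt ((const_lt c x).trans_le (tower_mono_left (by omega) x))
          ((self_lt x).trans_le (tower_mono_left (by omega) x))
          (e1.trans_le (tower_mono_left (by omega) x))
      exact e2.trans_le (tower_mono_left (by omega) x)
    · exact ((a3 t ht).trans_le (hg1 k1)).trans_le (tower_mono_left (by omega) x)
    · exact (b3 t ht).trans_le (tower_mono_left (by omega) x)

theorem recF_zero (f g : ℕ → ℕ) (z : ℕ) : recF f g (Nat.pair z 0) = f z := by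
  simp [recF]

theorem recF_succ (f g : ℕ → ℕ) (z n : ℕ) :
    recF f g (Nat.pair z (n + 1)) = g (Nat.pair z (Nat.pair n (recF f g (Nat.pair z n)))) := by
  simp [recF]

theorem pair_le_right {z j n : ℕ} (h : j ≤ n) : Nat.pair z j ≤ Nat.pair z n := by
  rcases h.lt_or_eq with h | h
  · exact (Nat.pair_lt_pair_right z h).le
  · rw [h]

theorem Q.rec {f g : ℕ → ℕ} (hf : Q f) (hg : Q g) (hb : ∃ b, ∀ n, recF f g n < tower b n) :
    Q (recF f g) := by
  obtain ⟨b, hb⟩ := hb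
  obtain ⟨c1, k1, h1⟩ := hf
  obtain ⟨c2, k2, h2⟩ := hg
  choose W1 a1 a2 a3 using h1
  choose W2 b1 b2 b3 using h2
  set c := Nat.pair 6 (Nat.pair c1 c2) with hc
  set F := recF f g with hF
  set K := (c + 1) + b + k1 + k2 + 10 with hK
  refine ⟨c, K, fun x => ?_⟩
  obtain ⟨z, n, rfl⟩ : ∃ z n, x = Nat.pair z n := ⟨_, _, (Nat.pair_unpair x).symm⟩
  set V : ℕ → Set ℕ := fun j => W2 (Nat.pair z (Nat.pair j (F (Nat.pair z j)))) with hV
  set U : Set ℕ := W1 z ∪ ⋃ j : Fin n, V j with hU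
  have hUc : Closed U := closed_union (a1 z) (closed_iUnion fun j => b1 _)
  refine ⟨{t | ∃ j ≤ n, t = tr c (Nat.pair z j) (F (Nat.pair z j))} ∪ U, ?_, ?_, ?_⟩
  · intro t ht
    rcases ht with ⟨j, hj, rfl⟩ | ht
    · refine ⟨c, Nat.pair z j, _, 6, c1, c2, rfl, hc, ?_⟩
      refine Or.inr (Or.inr (Or.inr (Or.inr (Or.inr (Or.inr ⟨rfl, z, j, rfl, ?_⟩)))))
      rcases j with _ | j
      · refine Or.inl ⟨rfl, Or.inr (Or.inl ?_)⟩
        rw [hF, recF_zero]
        exact a2 z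
      · refine Or.inr ⟨j, F (Nat.pair z j), rfl, Or.inl ⟨j, by omega, rfl⟩, Or.inr (Or.inr ?_)⟩
        refine Set.mem_iUnion.2 ⟨⟨j, by omega⟩, ?_⟩
        have h3 : F (Nat.pair z (j + 1)) = g (Nat.pair z (Nat.pair j (F (Nat.pair z j)))) := by
          rw [hF, recF_succ]
        rw [h3]
        exact b2 _
    · exact just_mono Set.subset_union_right (hUc t ht)
  · exact Or.inl ⟨n, le_rfl, rfl⟩
  · have hz : z ≤ Nat.pair z n := Nat.left_le_pair z n
    have hn : n ≤ Nat.pair z n := Nat.right_le_pair z n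
    have hFj : ∀ j ≤ n, F (Nat.pair z j) < tower b (Nat.pair z n) := fun j hj =>
      (hb _).trans_le (tower_mono_right b (pair_le_right hj))
    generalize hx : Nat.pair z n = x at *
    intro t ht
    rcases ht with ⟨j, hj, rfl⟩ | ht | ht
    · have e0 : Nat.pair z j ≤ x := hx ▸ pair_le_right hj
      have e2 : tr c (Nat.pair z j) (F (Nat.pair z j)) < tower ((c + 1) + b + 1 + 4) x :=
        tr_lt ((const_lt c x).trans_le (tower_mono_left (by omega) x))
          ((e0.trans_lt (self_lt x)).trans_le (tower_mono_left (by omega) x))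
          ((hFj j hj).trans_le (tower_mono_left (by omega) x))
      exact e2.trans_le (tower_mono_left (by omega) x)
    · exact ((a3 z t ht).trans_le (tower_mono_right k1 hz)).trans_le
        (tower_mono_left (by omega) x)
    · obtain ⟨⟨j, hj⟩, hjt⟩ := Set.mem_iUnion.1 ht
      have e1 : Nat.pair j (F (Nat.pair z j)) < tower (b + 1 + 2) x :=
        pair_lt (((hj.le.trans hn).trans_lt (self_lt x)).trans_le (tower_mono_left (by omega) x))
          ((hFj j hj.le).trans_le (tower_mono_left (by omega) x))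
      have e2 : Nat.pair z (Nat.pair j (F (Nat.pair z j))) < tower (b + 1 + 2 + 2) x :=
        pair_lt ((hz.trans_lt (self_lt x)).trans_le (tower_mono_left (by omega) x)) e1
      have e3 := b3 _ t hjt
      refine e3.trans_le ((tower_mono_right k2 e2.le).trans ?_)
      rw [tower_tower]
      exact tower_mono_left (by omega) x

theorem Q.id : Q fun n => n := by
  have h := Q.pair Q.left Q.right
  have e : (fun n : ℕ => Nat.pair n.unpair.1 n.unpair.2) = fun n => n := by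
    funext n
    exact Nat.pair_unpair n
  rwa [e] at h

/-- doubling -/
theorem recF_double (w : ℕ) :
    recF (fun _ => 0) (fun w => w.unpair.2.unpair.2 + 1 + 1) w = 2 * w.unpair.2 := by
  obtain ⟨z, n, rfl⟩ : ∃ z n, w = Nat.pair z n := ⟨_, _, (Nat.pair_unpair w).symm⟩
  induction n with
  | zero => rw [recF_zero]; simp
  | succ n ih =>
    rw [recF_succ]
    simp only [Nat.unpair_pair] at ih ⊢
    rw [ih]
    ring

theorem two_mul_lt (w : ℕ) : 2 * w.unpair.2 < tower 2 w := by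
  have h1 := Nat.unpair_right_le w
  have h2 : tower 2 w = 2 ^ 2 ^ w := rfl
  have h3 : w < 2 ^ w := Nat.lt_two_pow_self
  have h4 : 2 ^ w < 2 ^ 2 ^ w := Nat.lt_two_pow_self
  have h5 : 2 * 2 ^ w ≤ 2 ^ 2 ^ w := by
    have : w + 1 ≤ 2 ^ w := h3
    calc 2 * 2 ^ w = 2 ^ (w + 1) := by rw [pow_succ]; ring
      _ ≤ _ := Nat.pow_le_pow_right (by norm_num) this
  omega

theorem recF_pow {D : ℕ → ℕ} (hD : ∀ w, D w = 2 * w.unpair.2) (w : ℕ) :
    recF (fun _ => 0 + 1) (fun w => D (Nat.pair 0 w.unpair.2.unpair.2)) w = 2 ^ w.unpair.2 := by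
  obtain ⟨z, n, rfl⟩ : ∃ z n, w = Nat.pair z n := ⟨_, _, (Nat.pair_unpair w).symm⟩
  induction n with
  | zero => rw [recF_zero]; simp
  | succ n ih =>
    rw [recF_succ]
    simp only [Nat.unpair_pair, hD] at ih ⊢
    rw [ih]
    ring

theorem Q.pow : Q fun n => 2 ^ n := by
  have h1 : Q fun w => w.unpair.2.unpair.2 := Q.comp Q.right Q.right
  have h2 : Q fun w => w.unpair.2.unpair.2 + 1 + 1 := Q.comp Q.succ (Q.comp Q.succ h1)
  have h3 : Q (recF (fun _ => 0) fun w => w.unpair.2.unpair.2 + 1 + 1) :=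
    Q.rec Q.zero h2 ⟨2, fun w => by rw [recF_double]; exact two_mul_lt w⟩
  have h4 : Q fun w => recF (fun _ => 0) (fun w => w.unpair.2.unpair.2 + 1 + 1)
      (Nat.pair 0 w.unpair.2.unpair.2) := Q.comp h3 (Q.pair Q.zero h1)
  have h5 : Q (recF (fun _ => 0 + 1) fun w => recF (fun _ => 0)
      (fun w => w.unpair.2.unpair.2 + 1 + 1) (Nat.pair 0 w.unpair.2.unpair.2)) := by
    refine Q.rec (Q.comp (f := fun n => n + 1) (g := fun _ => 0) Q.succ Q.zero) h4 ⟨2, fun w => ?_⟩
    rw [recF_pow recF_double]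
    have e1 : 2 ^ w.unpair.2 ≤ 2 ^ w := Nat.pow_le_pow_right (by norm_num) (Nat.unpair_right_le w)
    have e2 : 2 ^ w < 2 ^ 2 ^ w := Nat.lt_two_pow_self
    exact e1.trans_lt e2
  have h6 := Q.comp h5 (Q.pair Q.zero Q.id)
  have e : (fun n : ℕ => recF (fun _ => 0 + 1) (fun w => recF (fun _ => 0)
      (fun w => w.unpair.2.unpair.2 + 1 + 1) (Nat.pair 0 w.unpair.2.unpair.2))
      (Nat.pair 0 n)) = fun n => 2 ^ n := by
    funext n
    rw [recF_pow recF_double, Nat.unpair_pair]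
  rwa [e] at h6

theorem t_REC : S_REC := by
  intro f hf
  change Q f
  induction hf with
  | zero => exact Q.zero
  | succ => exact Q.succ
  | left => exact Q.left
  | right => exact Q.right
  | pow => exact Q.pow
  | pair _ _ ih1 ih2 => exact Q.pair ih1 ih2
  | comp _ _ ih1 ih2 => exact Q.comp ih1 ih2
  | limrec _ _ _ hle ih1 ih2 ih3 =>
    obtain ⟨k, hk⟩ := ih3.bound
    exact Q.rec ih1 ih2 ⟨k, fun n => (hle n).trans_lt (hk n)⟩

end Pool.Agent.Y638.EL
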